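import Mathlib
import Pool.Agent.H96.PR.T4

set_option autoImplicit false

/-! # Primitive roots modulo every prime in deterministic time `p ^ (1 / (4 e ^ (2 / 3)) + ε)` -/

namespace Pool.Agent.Results.MP_18a8a6_lc.EveryPrimeGaussian

open Finset

/-- the number `g` is a primitive root modulo `p` -/
def IsPrimRoot (p g : ℕ) : Prop := orderOf (g : ZMod p) = p - 1

open Classical in
/-- After `T` rounds the algorithm made of the three functions `init`, `step`, `out` puts out, on
the input `p` in binary, (the code of) a list of `p.size ^ C` numbers all of which up to a fraction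
of at most `p.size ^ (-B)` are primitive roots modulo `p`. -/
def Finds (init step out : List Bool → List Bool) (B C p T : ℕ) : Prop :=
  ∃ F : List ℕ, out (step^[T] (init (Nat.bits p))) = NPC.bits F ∧ F.length = p.size ^ C ∧
    p.size ^ B * #{i ∈ range F.length | ¬ IsPrimRoot p (F.getD i 0)} ≤ F.length

/-- **Primitive roots modulo every prime, without the factorisation of `p - 1`.**
For `0 < ε ≤ 1` and every `B` there are `C` and three functions `init`, `step`, `out` on bit strings
computable in polynomial time (by Turing machines) such that all the states which occur on the input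
`p` have at most `50 * size p` bits (linear space) and such that for every prime `p ≥ p₀`, without
exception, `p ^ (1 / (4 e ^ (2 / 3)) + ε)` rounds (`1 / (4 e ^ (2 / 3)) = 0.1283…`) suffice to produce
a list of `size p ^ C` numbers of which all but a fraction `size p ^ (-B)` are primitive roots
modulo `p`. -/
theorem result (ε : ℝ) (hε : 0 < ε) (hε1 : ε ≤ 1) (B : ℕ) :
    ∃ (C : ℕ) (init step out : List Bool → List Bool),
      NPC.PolyTime init ∧ NPC.PolyTime step ∧ NPC.PolyTime out ∧
      (∀ p : ℕ, 2 ≤ p → ∀ k : ℕ, (step^[k] (init (Nat.bits p))).length ≤ 50 * p.size) ∧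
      ∃ p₀ : ℕ, ∀ p : ℕ, p₀ ≤ p → p.Prime → ∀ T : ℕ,
        (p : ℝ) ^ (1 / (4 * Real.exp (2 / 3)) + ε) ≤ T → Finds init step out B C p T :=
  Pool.Agent.H96.PR.T4.main ε hε hε1 B

end Pool.Agent.Results.MP_18a8a6_lc.EveryPrimeGaussian
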